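import Pool.Agent.Y199.Bi.Sub

/-!
MP_ed9921_ag, Q1: a projective integral homology fibre bundle over `ℂ` with smooth total space and
smooth connected fibres away from the origin, which is not smooth over the origin.
-/

set_option autoImplicit false

open scoped LinearAlgebra.Projectivization

namespace Pool.Agent.Results.MP_ed9921_ag.BiellipticCusp

open Pool.Agent.Helper922.HB Pool.Agent.Y199.Bi

/-- There is a closed complex submanifold `X` of dimension three of `ℂ × P¹¹` whose projection
`f : X → ℂ` is a `ℤ`-homology fibre bundle, such that for every `s ≠ 0` the fibre over `s` is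
connected and `f` is a submersion at all its points (so the fibre is a smooth projective variety),
but `f` is not a submersion at some point over the origin. As `X` is smooth it is its own
normalization. (The fibres over `s ≠ 0` are bielliptic surfaces `(E × {y² = x³ + s}) / μ₆`, the
fibre over `0` is the corresponding bundle of cuspidal cubics over `E / μ₆`.) -/
theorem result : ∃ X : Set (ℂ × ℙ ℂ (Fin 3 × Fin 4 → ℂ)),
    IsClosedSubmanifold 3 X ∧
    (∀ s : ℂ, s ≠ 0 → IsConnected {x : ℙ ℂ (Fin 3 × Fin 4 → ℂ) | (s, x) ∈ X}) ∧
    (∀ p ∈ X, p.1 ≠ 0 → ProjSubmersiveAt 3 X p) ∧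
    IsZHomologyFiberBundle (fun p : X => p.1.1) ∧
    ∃ p ∈ X, ¬ ProjSubmersiveAt 3 X p :=
  ⟨XX, XX_submanifold, fun s _ => fibre_connected s, submersive_XX, fX_bundle, not_submersive⟩

end Pool.Agent.Results.MP_ed9921_ag.BiellipticCusp
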